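import Mathlib

/-!
Definitions for `MP_8fc134_al` (minimal relations of numerical semigroups).
-/

namespace NS57

open scoped Pointwise

/-- The minimal generators of a submonoid `S` of `ℕ`: the nonzero elements which are not a sum of
two nonzero elements of `S`. -/
def minGens (S : AddSubmonoid ℕ) : Set ℕ :=
  {g | g ∈ S ∧ g ≠ 0 ∧ ∀ a ∈ S, ∀ b ∈ S, a + b = g → a = 0 ∨ b = 0}

/-- `φ : ℕ^k → ℕ`, `φ(w) = ∑ w_g g` (coordinates indexed by the minimal generators). -/
def phi (S : AddSubmonoid ℕ) (w : minGens S →₀ ℕ) : ℕ := w.sum fun g n => n * (g : ℕ)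

/-- `R` generates the congruence `{(a, b) : φ a = φ b}` on `ℕ^k`. -/
def Presents (S : AddSubmonoid ℕ) (R : Finset ((minGens S →₀ ℕ) × (minGens S →₀ ℕ))) : Prop :=
  ∀ a b, addConGen (fun x y => (x, y) ∈ R) a b ↔ phi S a = phi S b

/-- `ρ(S)`: the least number of pairs in a generating set of the congruence. -/
noncomputable def rho (S : AddSubmonoid ℕ) : ℕ := sInf {n | ∃ R, Presents S R ∧ R.card = n}

/-- All values `ρ(S)` for numerical semigroups `S` of embedding dimension `e + 1` and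
multiplicity `m`. -/
def rhoSet (e m : ℕ) : Set ℕ :=
  {n | ∃ S : AddSubmonoid ℕ, (S : Set ℕ)ᶜ.Finite ∧ (minGens S).ncard = e + 1 ∧
    IsLeast {x | x ∈ S ∧ x ≠ 0} m ∧ rho S = n}

/-- `mac d n = n^⟨d⟩` (Macaulay), computed from the greedy `d`-binomial representation of `n`. -/
def mac : ℕ → ℕ → ℕ
  | 0, _ => 0
  | _ + 1, 0 => 0
  | d + 1, n + 1 =>
    let k := Nat.findGreatest (fun k => k.choose (d + 1) ≤ n + 1) (n + 1 + d)
    (k + 1).choose (d + 2) + mac d (n + 1 - k.choose (d + 1))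

/-- `𝒞(e, m)`, where `r` is the integer with `(e+r-1 choose r-1) ≤ m < (e+r choose r)`. -/
def CC (e m r : ℕ) : ℕ :=
  (e + r - 1).choose r + mac r (m - (e + r - 1).choose (r - 1)) - (m - (e + r - 1).choose (r - 1))

/-- The combinatorial condition: with `s = (d+1 choose 2) + t`, `0 ≤ t ≤ d`, the group `ℤ/m`
contains a Sidon set `A ∋ 0` with `d + 1` elements, together with `t` further sums of a special
shape outside `A + A`. -/
def Cond (m s : ℕ) : Prop :=
  ∃ d t : ℕ, t ≤ d ∧ s = (d + 1).choose 2 + t ∧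
    ∃ A : Finset (ZMod m), 0 ∈ A ∧ A.card = d + 1 ∧ (A + A).card = (d + 2).choose 2 ∧
      (t = 0 ∨
        (∃ y : ZMod m, ∃ T ⊆ insert y A, 0 ∈ T ∧ T.card = t + 1 ∧
          Disjoint (T.image fun c => y + c) (A + A)) ∨
        (t = 1 ∧ ∃ x ∈ A, 3 * x ∉ A + A))

/-- `ℤ/m` contains a perfect difference set with `d + 1` elements (`m = d² + d + 1`; equivalently a
cyclic projective plane of order `d`). -/
def PerfectDifferenceSet (m d : ℕ) : Prop :=
  ∃ A : Finset (ZMod m), A.card = d + 1 ∧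
    ∀ x : ZMod m, x ≠ 0 → ∃! p : ZMod m × ZMod m, p.1 ∈ A ∧ p.2 ∈ A ∧ p.1 - p.2 = x

end NS57
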