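import Mathlib

/-!
Definitions for the `t = -1` phenomenon.  A vector `Fin n → ℤ` is the coordinate vector of an
element of the root lattice with respect to the simple roots, and `M` is a Cartan matrix with
`M i j = ⟨α_i, α_j^∨⟩`.
-/

namespace Pool.Agent.Helper57.TM1Defs

variable {n : ℕ}

/-- The Cartan matrices of the complex simple Lie algebras. -/
inductive IsSimpleCartan : (n : ℕ) → Matrix (Fin n) (Fin n) ℤ → Prop
  | A (n : ℕ) (h : 1 ≤ n) : IsSimpleCartan n (CartanMatrix.A n)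
  | B (n : ℕ) (h : 2 ≤ n) : IsSimpleCartan n (CartanMatrix.B n)
  | C (n : ℕ) (h : 2 ≤ n) : IsSimpleCartan n (CartanMatrix.C n)
  | D (n : ℕ) (h : 3 ≤ n) : IsSimpleCartan n (CartanMatrix.D n)
  | E₆ : IsSimpleCartan 6 CartanMatrix.E₆
  | E₇ : IsSimpleCartan 7 CartanMatrix.E₇
  | E₈ : IsSimpleCartan 8 CartanMatrix.E₈
  | F₄ : IsSimpleCartan 4 CartanMatrix.F₄
  | G₂ : IsSimpleCartan 2 CartanMatrix.G₂

/-- The simple root `α_j`. -/
def simpleRoot (j : Fin n) : Fin n → ℤ := fun k => if k = j then 1 else 0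

/-- The simple reflection `s_j : c ↦ c - ⟨c, α_j^∨⟩ α_j`. -/
def reflection (M : Matrix (Fin n) (Fin n) ℤ) (j : Fin n) (c : Fin n → ℤ) : Fin n → ℤ :=
  fun k => if k = j then c k - ∑ i, c i * M i j else c k

/-- The elements of the group generated by the simple reflections `s_j`, `j ∈ J`. -/
inductive InWeyl (M : Matrix (Fin n) (Fin n) ℤ) (J : Set (Fin n)) :
    ((Fin n → ℤ) → (Fin n → ℤ)) → Prop
  | one : InWeyl M J (fun c => c)
  | mul (j : Fin n) (w : (Fin n → ℤ) → (Fin n → ℤ)) (hj : j ∈ J) (hw : InWeyl M J w) :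
      InWeyl M J (fun c => reflection M j (w c))

/-- The root system: the orbit of the simple roots under the Weyl group. -/
def roots (M : Matrix (Fin n) (Fin n) ℤ) : Set (Fin n → ℤ) :=
  {γ | ∃ w, InWeyl M Set.univ w ∧ ∃ j, γ = w (simpleRoot j)}

/-- The degree with respect to the labelling `ℓ` of the simple roots. -/
def degree (ℓ : Fin n → ℕ) (γ : Fin n → ℤ) : ℤ := ∑ i, γ i * (ℓ i : ℤ)

/-- `Δ(1)`: the roots of degree one. -/
def Delta1 (M : Matrix (Fin n) (Fin n) ℤ) (ℓ : Fin n → ℕ) : Set (Fin n → ℤ) :=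
  {γ | γ ∈ roots M ∧ degree ℓ γ = 1}

/-- `I` is an upper ideal of `Δ(1)`, where `γ ⪯ γ'` iff `γ' - γ` has nonnegative coordinates. -/
def IsUpperIdeal (M : Matrix (Fin n) (Fin n) ℤ) (ℓ : Fin n → ℕ) (I : Set (Fin n → ℤ)) : Prop :=
  I ⊆ Delta1 M ℓ ∧ ∀ γ ∈ I, ∀ γ' ∈ Delta1 M ℓ, (∀ i, γ i ≤ γ' i) → γ' ∈ I

/-- The polynomial `∑_I t^{#I}` over the upper ideals of `Δ(1)`. -/
noncomputable def idealPoly (M : Matrix (Fin n) (Fin n) ℤ) (ℓ : Fin n → ℕ) : Polynomial ℤ :=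
  ∑ᶠ I ∈ {I | IsUpperIdeal M ℓ I}, (Polynomial.X : Polynomial ℤ) ^ I.ncard

/-- `w` is the longest element of `W(0)`, the group generated by the `s_j` with `ℓ j = 0`:
it lies in `W(0)` and maps every simple root of degree `0` to a negative root. -/
def IsLongest (M : Matrix (Fin n) (Fin n) ℤ) (ℓ : Fin n → ℕ)
    (w : (Fin n → ℤ) → (Fin n → ℤ)) : Prop :=
  InWeyl M {j | ℓ j = 0} w ∧ ∀ j, ℓ j = 0 → ∀ i, w (simpleRoot j) i ≤ 0

end Pool.Agent.Helper57.TM1Defs
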